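import Pool.Agent.N343.AM.Stm

set_option autoImplicit false

/-! # One block (AM/BLK) -/

open Finset

namespace Pool.Agent.N91.AM

open Pool.Agent.N343.AM

theorem star_app {W : Set Wd} {s t : Wd} (hs : s ∈ star W) (ht : t ∈ star W) : s ++ t ∈ star W := by
  obtain ⟨l, hl, rfl⟩ := hs
  obtain ⟨l', hl', rfl⟩ := ht
  refine ⟨l ++ l', ?_, by simp⟩
  intro w hw
  rcases List.mem_append.1 hw with h | h
  · exact hl w h
  · exact hl' w h

theorem main (hF : S_FRO) (hC : S_CUT) : S_BLK := by
  intro W m L hLv hL u hu
  by_cases hfac : u ∈ Fac W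
  · obtain ⟨A, B, hAB⟩ := hfac
    obtain ⟨hc1, hc2, -, -⟩ := hC W m hLv
    have hsuf : u ++ B ∈ Suf W := ⟨A, by rw [← List.append_assoc]; exact hAB⟩
    have hlen : (u ++ B).length = L + B.length := by rw [List.length_append, hu]
    obtain ⟨a, b, hb, hab, ha1, ha2⟩ := hc2 (u ++ B) hsuf (m ^ 2) (by rw [hlen]; nlinarith)
    have hlen2 : a.length + b.length = L + B.length := by
      rw [← hlen, hab, List.length_append]
    have hpL : a.length + m ^ 2 ≤ L := by nlinarith
    obtain ⟨b1, hb1, b2, hb2, hbb, hb3, hb4⟩ := hc1 b hb (L - m ^ 2 - a.length) (by omega)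
    obtain ⟨f1, hf1, hf1l⟩ := hF W m hLv a.length ha1
    obtain ⟨f2, hf2, hf2l⟩ := hF W m hLv (L - (a.length + b1.length)) (by omega)
    refine ⟨f1 ++ b1 ++ f2, star_app (star_app hf1 hb1) hf2, ?_, fun _ => ?_⟩
    · rw [List.length_append, List.length_append, hf1l, hf2l]
      omega
    · have hsub : (range L).filter (fun i => u[i]? ≠ (f1 ++ b1 ++ f2)[i]?) ⊆
          range a.length ∪ Finset.Ico (a.length + b1.length) L := by
        intro i hi
        rw [mem_filter, mem_range] at hi
        obtain ⟨hiL, hne⟩ := hi
        rw [mem_union, mem_range, Finset.mem_Ico]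
        by_contra hcon
        push Not at hcon
        obtain ⟨h1, h2⟩ := hcon
        have h3 : i < a.length + b1.length := by
          by_contra h4
          exact absurd hiL (not_lt.2 (h2 (not_lt.1 h4)))
        apply hne
        have e1 : u[i]? = (u ++ B)[i]? := by
          rw [List.getElem?_append_left (by rw [hu]; exact hiL)]
        rw [e1, hab, hbb, List.getElem?_append_right h1, List.getElem?_append_left (by omega),
          List.append_assoc, List.getElem?_append_right (by rw [hf1l]; exact h1), hf1l,
          List.getElem?_append_left (by omega)]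
      calc hl u (f1 ++ b1 ++ f2) L ≤ (range a.length ∪ Finset.Ico (a.length + b1.length) L).card :=
            card_le_card hsub
        _ ≤ a.length + (L - (a.length + b1.length)) := by
            refine (card_union_le _ _).trans ?_
            rw [card_range, Nat.card_Ico]
        _ ≤ 4 * (m ^ 2 + m + 1) := by omega
  · obtain ⟨s, hs, hsl⟩ := hF W m hLv L (by nlinarith)
    exact ⟨s, hs, hsl, fun h => absurd h hfac⟩

end Pool.Agent.N91.AM
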